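import Mathlib

/-!
Functions on vector spaces over the field with two elements that are joint eigenvectors of many
Pauli operators.
-/

namespace Pool.Agent.H941R2.Stab

open Finset Module

lemma zmod2_cases : ∀ c : ZMod 2, c = 0 ∨ c = 1 := by decide

lemma one_add_one' : (1 + 1 : ZMod 2) = 0 := by decide

/-- the sign character of `ZMod 2` -/
noncomputable def sg (a : ZMod 2) : ℂ := if a = 0 then 1 else -1

@[simp] lemma sg_zero : sg 0 = 1 := by simp [sg]

@[simp] lemma sg_one : sg 1 = -1 := by simp [sg]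

lemma sg_add (a b : ZMod 2) : sg (a + b) = sg a * sg b := by
  rcases zmod2_cases a with rfl | rfl <;> rcases zmod2_cases b with rfl | rfl <;>
    simp [one_add_one']

lemma sg_sq (a : ZMod 2) : sg a * sg a = 1 := by
  rcases zmod2_cases a with rfl | rfl <;> simp

lemma sg_ne (a : ZMod 2) : sg a ≠ 0 := by
  rcases zmod2_cases a with rfl | rfl <;> simp

lemma sg_eq_one {a : ZMod 2} (h : sg a = 1) : a = 0 := by
  by_contra h0
  rw [sg, if_neg h0] at h
  norm_num at h

lemma sg_inj {a b : ZMod 2} (h : sg a = sg b) : a = b := by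
  have : sg (a + b) = 1 := by rw [sg_add, h, sg_sq]
  have h2 := sg_eq_one this
  have h3 : a = a + b + b := by rw [add_assoc, CharTwo.add_self_eq_zero, add_zero]
  rw [h3, h2, zero_add]

lemma sg_sum {ι : Type*} (s : Finset ι) (f : ι → ZMod 2) : sg (∑ i ∈ s, f i) = ∏ i ∈ s, sg (f i) := by
  classical
  induction s using Finset.induction_on with
  | empty => simp
  | insert a s ha ih => rw [Finset.sum_insert ha, Finset.prod_insert ha, sg_add, ih]

section Eig

variable {E : Type*} [AddCommGroup E] [Module (ZMod 2) E]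
variable {V : Type*} [AddCommGroup V] [Module ℂ V]

lemma add_self' (x : E) : x + x = 0 := by
  have : (2 : ZMod 2) • x = 0 := by
    have : (2 : ZMod 2) = 0 := by decide
    rw [this, zero_smul]
  rwa [two_smul] at this

/-- The space of the pairs `(a, b)` such that `T` is an eigenvector of the Pauli operator that
sends `T` to `z ↦ (-1) ^ b(z) T (z + a)`. -/
noncomputable def Eig (T : E → V) : Submodule (ZMod 2) (E × Dual (ZMod 2) E) where
  carrier := {w | ∃ c : ℂ, ∀ z, sg (w.2 z) • T (z + w.1) = c • T z}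
  add_mem' := by
    rintro ⟨a, b⟩ ⟨a', b'⟩ ⟨c, hc⟩ ⟨c', hc'⟩
    refine ⟨c * c' * sg (b' a), fun z => ?_⟩
    simp only [Prod.fst_add, Prod.snd_add, LinearMap.add_apply] at *
    have h1 := hc' (z + a)
    have h2 := hc z
    rw [map_add, sg_add] at h1
    have h3 : T (z + (a + a')) = (sg (b' z) * sg (b' a)) • (c' • T (z + a)) := by
      rw [← h1, smul_smul, ← add_assoc]
      have : sg (b' z) * sg (b' a) * (sg (b' z) * sg (b' a)) = 1 := by
        calc _ = (sg (b' z) * sg (b' z)) * (sg (b' a) * sg (b' a)) := by ring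
          _ = 1 := by rw [sg_sq, sg_sq, one_mul]
      rw [this, one_smul]
    rw [h3, sg_add]
    calc (sg (b z) * sg (b' z)) • (sg (b' z) * sg (b' a)) • c' • T (z + a)
        = ((sg (b' z) * sg (b' z)) * sg (b' a) * c') • (sg (b z) • T (z + a)) := by
          simp only [smul_smul]; congr 1; ring
      _ = (c * c' * sg (b' a)) • T z := by
          rw [h2, sg_sq, smul_smul]; congr 1; ring
  zero_mem' := ⟨1, fun z => by simp⟩
  smul_mem' := by
    rintro c w ⟨d, hd⟩
    rcases zmod2_cases c with h | h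
    · subst h
      exact ⟨1, fun z => by simp⟩
    · subst h
      exact ⟨d, fun z => by simpa using hd z⟩

lemma mem_Eig {T : E → V} {w : E × Dual (ZMod 2) E} :
    w ∈ Eig T ↔ ∃ c : ℂ, ∀ z, sg (w.2 z) • T (z + w.1) = c • T z := Iff.rfl

/-- eigenvalues square to `±1` -/
lemma eig_sq {T : E → V} {w : E × Dual (ZMod 2) E} {c : ℂ}
    (hc : ∀ z, sg (w.2 z) • T (z + w.1) = c • T z) {z₀ : E} (h0 : T z₀ ≠ 0) :
    c * c = sg (w.2 w.1) := by
  have h1 := hc (z₀ + w.1)
  have h2 := hc z₀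
  have h3 : z₀ + w.1 + w.1 = z₀ := by rw [add_assoc, add_self', add_zero]
  rw [h3, map_add, sg_add] at h1
  have h4 : (c * c) • T z₀ = sg (w.2 w.1) • T z₀ := by
    calc (c * c) • T z₀ = c • (sg (w.2 z₀) • T (z₀ + w.1)) := by rw [h2, smul_smul]
      _ = sg (w.2 z₀) • (c • T (z₀ + w.1)) := by rw [smul_smul, smul_smul, mul_comm]
      _ = sg (w.2 z₀) • ((sg (w.2 z₀) * sg (w.2 w.1)) • T z₀) := by rw [h1]
      _ = sg (w.2 w.1) • T z₀ := by rw [smul_smul, ← mul_assoc, sg_sq, one_mul]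
  by_contra hne
  have h5 : (c * c - sg (w.2 w.1)) • T z₀ = 0 := by rw [sub_smul, h4, sub_self]
  rcases smul_eq_zero.1 h5 with h | h
  · exact hne (sub_eq_zero.1 h)
  · exact h0 h

lemma eig_ne {T : E → V} {w : E × Dual (ZMod 2) E} {c : ℂ}
    (hc : ∀ z, sg (w.2 z) • T (z + w.1) = c • T z) {z₀ : E} (h0 : T z₀ ≠ 0) : c ≠ 0 := by
  intro h
  have := eig_sq hc h0
  rw [h, mul_zero] at this
  exact sg_ne _ this.symm

/-- the translate of a nonzero value is nonzero -/
lemma shift_ne {T : E → V} {w : E × Dual (ZMod 2) E} (hw : w ∈ Eig T) {z₀ : E} (h0 : T z₀ ≠ 0) :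
    T (z₀ + w.1) ≠ 0 := by
  obtain ⟨c, hc⟩ := hw
  intro h
  have h1 := hc z₀
  rw [h, smul_zero] at h1
  rcases smul_eq_zero.1 h1.symm with h2 | h2
  · exact eig_ne hc h0 h2
  · exact h0 h2

/-- `T` is an eigenvector of a maximal family of Pauli operators (or zero). -/
def IsQ (T : E → V) : Prop := finrank (ZMod 2) E ≤ finrank (ZMod 2) (Eig T)

end Eig

section LA

variable {U U' U'' : Type*} [AddCommGroup U] [Module (ZMod 2) U] [AddCommGroup U']
  [Module (ZMod 2) U'] [AddCommGroup U''] [Module (ZMod 2) U'']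
  [Module.Finite (ZMod 2) U] [Module.Finite (ZMod 2) U'] [Module.Finite (ZMod 2) U'']

lemma fr (W : Submodule (ZMod 2) U) (f : U →ₗ[ZMod 2] U') (A : Submodule (ZMod 2) U')
    (K : Submodule (ZMod 2) U'') (j : U →ₗ[ZMod 2] U'') (hA : ∀ w ∈ W, f w ∈ A)
    (hK : ∀ w ∈ W, f w = 0 → j w ∈ K ∧ (j w = 0 → w = 0)) :
    finrank (ZMod 2) W ≤ finrank (ZMod 2) A + finrank (ZMod 2) K := by
  let g : W →ₗ[ZMod 2] A := f.restrict hA
  have h1 := LinearMap.finrank_range_add_finrank_ker g
  have h2 : finrank (ZMod 2) (LinearMap.range g) ≤ finrank (ZMod 2) A := Submodule.finrank_le _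
  have hk : ∀ x : LinearMap.ker g, f x.1.1 = 0 := by
    rintro ⟨x, hx⟩
    have : ((g x : A) : U') = 0 := by rw [LinearMap.mem_ker.1 hx]; rfl
    exact this
  let k : LinearMap.ker g →ₗ[ZMod 2] K :=
    ((j.comp W.subtype).comp (LinearMap.ker g).subtype).codRestrict K
      (fun x => (hK x.1.1 x.1.2 (hk x)).1)
  have hkinj : Function.Injective k := by
    rw [← LinearMap.ker_eq_bot, LinearMap.ker_eq_bot']
    intro x hx
    have hx' : j x.1.1 = 0 := by
      have : ((k x : K) : U'') = 0 := by rw [hx]; rfl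
      exact this
    have := (hK x.1.1 x.1.2 (hk x)).2 hx'
    apply Subtype.ext
    apply Subtype.ext
    exact this
  have h3 : finrank (ZMod 2) (LinearMap.ker g) ≤ finrank (ZMod 2) K :=
    LinearMap.finrank_le_finrank_of_injective hkinj
  omega

lemma fr_inj (W : Submodule (ZMod 2) U) (W' : Submodule (ZMod 2) U') (f : U →ₗ[ZMod 2] U')
    (hA : ∀ w ∈ W, f w ∈ W') (hK : ∀ w ∈ W, f w = 0 → w = 0) :
    finrank (ZMod 2) W ≤ finrank (ZMod 2) W' := by
  have := fr W f W' (⊥ : Submodule (ZMod 2) U) LinearMap.id hA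
    (fun w hw h => ⟨by simpa using hK w hw h, fun _ => hK w hw h⟩)
  simpa using this

/-- dimension of a preimage -/
lemma fr_comap (φ : U →ₗ[ZMod 2] U') (W N : Submodule (ZMod 2) U') (hWN : W ≤ N)
    (hφ : ∀ y, φ y ∈ N) :
    finrank (ZMod 2) U + finrank (ZMod 2) W ≤
      finrank (ZMod 2) N + finrank (ZMod 2) (W.comap φ) := by
  let ψ : U →ₗ[ZMod 2] N := φ.codRestrict N hφ
  let W₀ : Submodule (ZMod 2) N := W.comap N.subtype
  let q : U →ₗ[ZMod 2] (N ⧸ W₀) := W₀.mkQ.comp ψ
  have h1 := LinearMap.finrank_range_add_finrank_ker q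
  have h2 : finrank (ZMod 2) (LinearMap.range q) ≤ finrank (ZMod 2) (N ⧸ W₀) :=
    Submodule.finrank_le _
  have h3 := Submodule.finrank_quotient_add_finrank W₀
  have h4 : finrank (ZMod 2) W₀ = finrank (ZMod 2) W :=
    LinearEquiv.finrank_eq (Submodule.comapSubtypeEquivOfLe hWN)
  have h5 : LinearMap.ker q = W.comap φ := by
    ext y
    simp only [q, LinearMap.mem_ker, LinearMap.comp_apply, Submodule.mkQ_apply,
      Submodule.Quotient.mk_eq_zero, W₀, Submodule.mem_comap]
    rfl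
  rw [h5] at h1
  omega

end LA

end Pool.Agent.H941R2.Stab
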