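import Pool.Agent.H941R2.StabA

/-!
Closure properties of the class `IsQ`, and uniqueness.
-/

namespace Pool.Agent.H941R2.Stab

open Finset Module

variable {E F : Type*} [AddCommGroup E] [Module (ZMod 2) E] [Module.Finite (ZMod 2) E]
  [AddCommGroup F] [Module (ZMod 2) F] [Module.Finite (ZMod 2) F]
variable {V : Type*} [AddCommGroup V] [Module ℂ V]

lemma finrank_prod' : finrank (ZMod 2) (E × F) = finrank (ZMod 2) E + finrank (ZMod 2) F :=
  Module.finrank_prod

omit [Module.Finite (ZMod 2) E] in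
lemma finrank_dual' : finrank (ZMod 2) (Dual (ZMod 2) E) = finrank (ZMod 2) E :=
  Subspace.dual_finrank_eq

lemma finrank_prod_le (A : Submodule (ZMod 2) E) (B : Submodule (ZMod 2) F) :
    finrank (ZMod 2) (A.prod B) ≤ finrank (ZMod 2) A + finrank (ZMod 2) B := by
  refine fr (A.prod B) (LinearMap.fst _ _ _) A B (LinearMap.snd _ _ _) ?_ ?_
  · rintro ⟨a, b⟩ ⟨ha, hb⟩
    exact ha
  · rintro ⟨a, b⟩ ⟨ha, hb⟩ h0
    refine ⟨hb, fun h1 => ?_⟩
    rw [Prod.mk_eq_zero]
    exact ⟨h0, h1⟩

/-- translation -/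
lemma isQ_translate {T : E → V} (h : IsQ T) (c₀ : E) : IsQ (fun z => T (c₀ + z)) := by
  unfold IsQ at *
  refine h.trans (Submodule.finrank_mono ?_)
  rintro ⟨a, b⟩ ⟨c, hc⟩
  refine ⟨c * sg (b c₀), fun z => ?_⟩
  have h1 := hc (c₀ + z)
  simp only at h1 ⊢
  rw [map_add, sg_add] at h1
  have h2 : sg (b z) • T (c₀ + z + a) = sg (b c₀) • c • T (c₀ + z) := by
    rw [← h1, smul_smul, ← mul_assoc, sg_sq, one_mul]
  rw [← add_assoc, h2, smul_smul, mul_comm]

/-- quadratic phases -/
lemma isQ_phase {T : E → V} (h : IsQ T) (g : E → ZMod 2) (β : E →ₗ[ZMod 2] Dual (ZMod 2) E)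
    (hg : ∀ z a, g (z + a) = g z + g a + β a z) : IsQ (fun z => sg (g z) • T z) := by
  unfold IsQ at *
  refine h.trans ?_
  let f : (E × Dual (ZMod 2) E) →ₗ[ZMod 2] (E × Dual (ZMod 2) E) :=
    LinearMap.prod (LinearMap.fst _ _ _) (LinearMap.snd _ _ _ + β.comp (LinearMap.fst _ _ _))
  refine fr_inj (Eig T) _ f ?_ ?_
  · rintro ⟨a, b⟩ ⟨c, hc⟩
    refine ⟨sg (g a) * c, fun z => ?_⟩
    have h1 := hc z
    simp only [f, LinearMap.prod_apply, Function.prod_apply, LinearMap.fst_apply,
      LinearMap.add_apply, LinearMap.snd_apply, LinearMap.comp_apply] at h1 ⊢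
    rw [hg, sg_add, sg_add, sg_add]
    calc (sg (b z) * sg (β a z)) • (sg (g z) * sg (g a) * sg (β a z)) • T (z + a)
        = (sg (β a z) * sg (β a z) * (sg (g z) * sg (g a))) • (sg (b z) • T (z + a)) := by
          simp only [smul_smul]; congr 1; ring
      _ = (sg (g a) * c) • sg (g z) • T z := by
          rw [h1, sg_sq]
          simp only [smul_smul]; congr 1; ring
  · rintro ⟨a, b⟩ _ h0
    simp only [f, LinearMap.prod_apply, Function.prod_apply, LinearMap.fst_apply,
      LinearMap.add_apply, LinearMap.snd_apply, LinearMap.comp_apply, Prod.mk_eq_zero] at h0 ⊢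
    obtain ⟨h1, h2⟩ := h0
    subst h1
    simpa using h2

/-- pull-back along a linear map -/
lemma isQ_pullback {T : F → V} (h : IsQ T) (l : E →ₗ[ZMod 2] F) : IsQ (fun z => T (l z)) := by
  by_cases hS : ∃ z, T (l z) ≠ 0
  swap
  · push Not at hS
    unfold IsQ
    have : Eig (fun z => T (l z)) = ⊤ := by
      rw [eq_top_iff]
      rintro w -
      refine ⟨1, fun z => ?_⟩
      simp only [hS, smul_zero]
    rw [this, finrank_top, finrank_prod']
    omega
  obtain ⟨z₀, hz₀⟩ := hS
  -- the space `K`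
  let K : Submodule (ZMod 2) (Dual (ZMod 2) F) :=
    (Eig T).comap (LinearMap.inr (ZMod 2) F (Dual (ZMod 2) F)) ⊓
      LinearMap.ker (Dual.transpose (R := ZMod 2) l)
  have hK0 : ∀ b ∈ K, ∀ z, b (l z) = 0 := by
    rintro b ⟨-, hb⟩ z
    have := LinearMap.mem_ker.1 hb
    exact LinearMap.congr_fun this z
  have hK1 : ∀ b ∈ K, ∀ y, T y ≠ 0 → b y = 0 := by
    rintro b hb y hy
    obtain ⟨c, hc⟩ := hb.1
    simp only [LinearMap.coe_inr, add_zero] at hc
    have h1 := hc (l z₀)
    rw [hK0 b hb z₀, sg_zero] at h1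
    have h2 := hc y
    have h3 : c = 1 := by
      by_contra hne
      have : (c - 1) • T (l z₀) = 0 := by rw [sub_smul, ← h1, sub_self]
      rcases smul_eq_zero.1 this with h | h
      · exact hne (sub_eq_zero.1 h)
      · exact hz₀ h
    apply sg_eq_one
    by_contra hne
    have : (sg (b y) - c) • T y = 0 := by rw [sub_smul, h2, sub_self]
    rcases smul_eq_zero.1 this with h | h
    · exact hne (by rw [sub_eq_zero.1 h, h3])
    · exact hy h
  -- the ambient subspace
  let N : Submodule (ZMod 2) (F × Dual (ZMod 2) F) :=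
    (Submodule.dualCoannihilator K).prod ⊤
  have hWN : Eig T ≤ N := by
    rintro ⟨a, b'⟩ hw
    refine ⟨?_, trivial⟩
    rw [SetLike.mem_coe, Submodule.mem_dualCoannihilator]
    intro b hb
    have h1 := shift_ne hw hz₀
    have h2 := hK1 b hb _ h1
    have h3 := hK1 b hb _ hz₀
    rw [map_add, h3, zero_add] at h2
    exact h2
  let φ : (E × Dual (ZMod 2) F) →ₗ[ZMod 2] (F × Dual (ZMod 2) F) :=
    LinearMap.prodMap l LinearMap.id
  have hφ : ∀ y, φ y ∈ N := by
    rintro ⟨z, b'⟩
    refine ⟨?_, trivial⟩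
    rw [SetLike.mem_coe, Submodule.mem_dualCoannihilator]
    intro b hb
    exact hK0 b hb z
  have h1 := fr_comap φ (Eig T) N hWN hφ
  have hN : finrank (ZMod 2) N + finrank (ZMod 2) K ≤ finrank (ZMod 2) F + finrank (ZMod 2) F := by
    have e1 : finrank (ZMod 2) N ≤ _ :=
      finrank_prod_le (Submodule.dualCoannihilator K) (⊤ : Submodule (ZMod 2) (Dual (ZMod 2) F))
    have e2 := Subspace.finrank_add_finrank_dualCoannihilator_eq K
    rw [finrank_top, finrank_dual'] at e1
    omega
  -- the map to the eigenspace of the pull-back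
  let ρ : (E × Dual (ZMod 2) F) →ₗ[ZMod 2] (E × Dual (ZMod 2) E) :=
    LinearMap.prodMap LinearMap.id (Dual.transpose (R := ZMod 2) l)
  have h2 : finrank (ZMod 2) ((Eig T).comap φ) ≤
      finrank (ZMod 2) (Eig (fun z => T (l z))) + finrank (ZMod 2) K := by
    refine fr _ ρ _ K (LinearMap.snd _ _ _) ?_ ?_
    · rintro ⟨a, b⟩ ⟨c, hc⟩
      refine ⟨c, fun z => ?_⟩
      have := hc (l z)
      change sg (b (l z)) • T (l (z + a)) = c • T (l z)
      rw [map_add]
      exact this
    · rintro ⟨a, b⟩ hw h0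
      have h3 : a = 0 := congrArg Prod.fst h0
      have h4 : Dual.transpose (R := ZMod 2) l b = 0 := congrArg Prod.snd h0
      subst h3
      refine ⟨⟨?_, h4⟩, ?_⟩
      · simpa [φ] using hw
      · intro h5
        rw [Prod.mk_eq_zero]
        exact ⟨rfl, h5⟩
  unfold IsQ at *
  rw [finrank_prod', finrank_dual'] at h1
  omega

/-- push-forward along a linear map -/
lemma isQ_pushforward [Fintype E] [DecidableEq F] {S : E → V} (h : IsQ S) (p : E →ₗ[ZMod 2] F) :
    IsQ (fun x => ∑ e with p e = x, S e) := by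
  set R : F → V := fun x => ∑ e with p e = x, S e with hR
  -- behaviour under translations
  have hshift : ∀ (x : F) (a : E), R (x + p a) = ∑ e with p e = x, S (e + a) := by
    intro x a
    simp only [hR]
    refine (Finset.sum_bij (fun e _ => e + a) ?_ ?_ ?_ ?_).symm
    · intro e he
      simp only [Finset.mem_filter, Finset.mem_univ, true_and] at he ⊢
      rw [map_add, he]
    · intro e _ e' _ hee
      exact add_right_cancel hee
    · intro e he
      simp only [Finset.mem_filter, Finset.mem_univ, true_and] at he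
      refine ⟨e + a, ?_, ?_⟩
      · simp only [Finset.mem_filter, Finset.mem_univ, true_and]
        rw [map_add, he, add_assoc, add_self', add_zero]
      · rw [add_assoc, add_self', add_zero]
    · intro e _
      rfl
  by_cases hR0 : ∃ x, R x ≠ 0
  swap
  · push Not at hR0
    unfold IsQ
    have : Eig R = ⊤ := by
      rw [eq_top_iff]
      rintro w -
      refine ⟨1, fun z => ?_⟩
      simp only [hR0, smul_zero]
    rw [this, finrank_top, finrank_prod']
    omega
  obtain ⟨x₀, hx₀⟩ := hR0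
  have hS0 : ∃ z, S z ≠ 0 := by
    by_contra hcon
    push Not at hcon
    exact hx₀ (Finset.sum_eq_zero fun e _ => hcon e)
  obtain ⟨z₀, hz₀⟩ := hS0
  -- the space `K`
  let K : Submodule (ZMod 2) E :=
    (Eig S).comap (LinearMap.inl (ZMod 2) E (Dual (ZMod 2) E)) ⊓ LinearMap.ker p
  have hK1 : ∀ a ∈ K, ∀ z, S (z + a) = S z := by
    rintro a ⟨⟨c, hc⟩, ha⟩ z
    simp only [LinearMap.coe_inl, LinearMap.zero_apply, sg_zero, one_smul] at hc
    have h1 := hshift x₀ a
    rw [LinearMap.mem_ker.1 ha, add_zero] at h1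
    have h2 : R x₀ = c • R x₀ := by
      calc R x₀ = ∑ e with p e = x₀, S (e + a) := h1
        _ = ∑ e with p e = x₀, c • S e := Finset.sum_congr rfl fun e _ => hc e
        _ = c • R x₀ := by rw [Finset.smul_sum]
    have h3 : c = 1 := by
      by_contra hne
      have : (c - 1) • R x₀ = 0 := by rw [sub_smul, ← h2, one_smul, sub_self]
      rcases smul_eq_zero.1 this with h | h
      · exact hne (sub_eq_zero.1 h)
      · exact hx₀ h
    rw [hc z, h3, one_smul]
  -- the ambient subspace
  let N : Submodule (ZMod 2) (E × Dual (ZMod 2) E) := (⊤ : Submodule (ZMod 2) E).prod K.dualAnnihilator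
  have hWN : Eig S ≤ N := by
    rintro ⟨a', b⟩ hw
    refine ⟨trivial, ?_⟩
    rw [SetLike.mem_coe, Submodule.mem_dualAnnihilator]
    intro a ha
    have h4 := shift_ne hw hz₀
    obtain ⟨c, hc⟩ := hw
    have h1 := hc z₀
    have h2 := hc (z₀ + a)
    simp only at h1 h2 h4
    have h5 : z₀ + a + a' = z₀ + a' + a := by abel
    rw [map_add, sg_add, h5, hK1 a ha, hK1 a ha, ← h1] at h2
    have h3 : (sg (b z₀) * sg (b a) - sg (b z₀)) • S (z₀ + a') = 0 := by
      rw [sub_smul, h2, sub_self]
    rcases smul_eq_zero.1 h3 with h | h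
    · apply sg_eq_one
      have h6 : sg (b z₀) * (sg (b a) - 1) = 0 := by rw [mul_sub, mul_one]; exact h
      rcases mul_eq_zero.1 h6 with h7 | h7
      · exact absurd h7 (sg_ne _)
      · exact sub_eq_zero.1 h7
    · exact absurd h h4
  let φ : (E × Dual (ZMod 2) F) →ₗ[ZMod 2] (E × Dual (ZMod 2) E) :=
    LinearMap.prodMap LinearMap.id (Dual.transpose (R := ZMod 2) p)
  have hφ : ∀ y, φ y ∈ N := by
    rintro ⟨z, b'⟩
    refine ⟨trivial, ?_⟩
    rw [SetLike.mem_coe, Submodule.mem_dualAnnihilator]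
    intro a ha
    change b' (p a) = 0
    rw [LinearMap.mem_ker.1 ha.2, map_zero]
  have h1 := fr_comap φ (Eig S) N hWN hφ
  have hN : finrank (ZMod 2) N + finrank (ZMod 2) K ≤ finrank (ZMod 2) E + finrank (ZMod 2) E := by
    have e1 : finrank (ZMod 2) N ≤ _ :=
      finrank_prod_le (⊤ : Submodule (ZMod 2) E) K.dualAnnihilator
    have e2 := Subspace.finrank_add_finrank_dualAnnihilator_eq K
    rw [finrank_top] at e1
    omega
  let ρ : (E × Dual (ZMod 2) F) →ₗ[ZMod 2] (F × Dual (ZMod 2) F) :=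
    LinearMap.prodMap p LinearMap.id
  have h2 : finrank (ZMod 2) ((Eig S).comap φ) ≤
      finrank (ZMod 2) (Eig R) + finrank (ZMod 2) K := by
    refine fr _ ρ _ K (LinearMap.fst _ _ _) ?_ ?_
    · rintro ⟨a, b⟩ ⟨c, hc⟩
      refine ⟨c, fun x => ?_⟩
      change sg (b x) • R (x + p a) = c • R x
      rw [hshift]
      simp only [hR, Finset.smul_sum]
      refine Finset.sum_congr rfl fun e he => ?_
      simp only [Finset.mem_filter, Finset.mem_univ, true_and] at he
      have := hc e
      change sg (b (p e)) • S (e + a) = c • S e at this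
      rw [he] at this
      exact this
    · rintro ⟨a, b⟩ hw h0
      have h3 : p a = 0 := congrArg Prod.fst h0
      have h4 : b = 0 := congrArg Prod.snd h0
      subst h4
      refine ⟨⟨?_, h3⟩, ?_⟩
      · have hw' : φ (a, 0) ∈ Eig S := hw
        have e : φ (a, 0) = (a, 0) := by
          simp only [φ, LinearMap.prodMap_apply, LinearMap.id_coe, id_eq, map_zero]
        rw [e] at hw'
        exact hw'
      · intro h5
        rw [Prod.mk_eq_zero]
        exact ⟨h5, rfl⟩
  unfold IsQ at *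
  rw [finrank_prod', finrank_dual'] at h1
  omega

/-- A joint eigenvector of a maximal family of Pauli operators has all its values proportional
to any nonzero one. -/
lemma isQ_values {G : E → V} (h : IsQ G) {z₀ : E} (h0 : G z₀ ≠ 0) (z : E) :
    ∃ c : ℂ, G z = c • G z₀ := by
  by_cases hz : G z = 0
  · exact ⟨0, by rw [hz, zero_smul]⟩
  let A : Submodule (ZMod 2) E := (Eig G).map (LinearMap.fst _ _ _)
  let K : Submodule (ZMod 2) (Dual (ZMod 2) E) :=
    (Eig G).comap (LinearMap.inr (ZMod 2) E (Dual (ZMod 2) E))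
  have hK : ∀ b ∈ K, ∀ y, G y ≠ 0 → b (z₀ + y) = 0 := by
    rintro b ⟨c, hc⟩ y hy
    simp only [LinearMap.coe_inr, add_zero] at hc
    have key : ∀ y, G y ≠ 0 → sg (b y) = c := by
      intro y hy
      have : (sg (b y) - c) • G y = 0 := by rw [sub_smul, hc y, sub_self]
      rcases smul_eq_zero.1 this with h | h
      · exact sub_eq_zero.1 h
      · exact absurd h hy
    apply sg_eq_one
    rw [map_add, sg_add, key _ h0, key _ hy, ← key _ h0, sg_sq]
  have hAK : A ≤ K.dualCoannihilator := by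
    rintro a ⟨⟨a', b⟩, hw, rfl⟩
    rw [Submodule.mem_dualCoannihilator]
    intro b' hb'
    have h1 := shift_ne hw h0
    have h2 := hK b' hb' _ h1
    rwa [← add_assoc, add_self', zero_add] at h2
  have h1 : finrank (ZMod 2) (Eig G) ≤ finrank (ZMod 2) A + finrank (ZMod 2) K := by
    refine fr (Eig G) (LinearMap.fst _ _ _) A K (LinearMap.snd _ _ _) ?_ ?_
    · intro w hw
      exact Submodule.mem_map_of_mem hw
    · rintro ⟨a, b⟩ hw h3
      have h3' : a = 0 := h3
      subst h3'
      refine ⟨hw, fun h4 => ?_⟩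
      rw [Prod.mk_eq_zero]
      exact ⟨rfl, h4⟩
  have h2 := Subspace.finrank_add_finrank_dualCoannihilator_eq K
  have hEq : A = K.dualCoannihilator := by
    apply Submodule.eq_of_le_of_finrank_le hAK
    unfold IsQ at h
    omega
  have hmem : z₀ + z ∈ A := by
    rw [hEq, Submodule.mem_dualCoannihilator]
    intro b hb
    exact hK b hb z hz
  obtain ⟨⟨a, b⟩, ⟨c, hc⟩, ha⟩ := hmem
  have ha' : a = z₀ + z := ha
  subst ha'
  have h3 := hc z₀
  simp only at h3
  have h4 : z₀ + (z₀ + z) = z := by rw [← add_assoc, add_self', zero_add]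
  rw [h4] at h3
  refine ⟨sg (b z₀) * c, ?_⟩
  rw [mul_smul, ← h3, smul_smul, sg_sq, one_smul]

end Pool.Agent.H941R2.Stab
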