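import Pool.Agent.H941R2.StabB

/-!
Counting: representatives of the class `IsQ`, and sign vectors in a subspace.
-/

namespace Pool.Agent.H941R2.Stab

open Finset Module

section Rep

variable {E : Type*} [AddCommGroup E] [Module (ZMod 2) E] [Module.Finite (ZMod 2) E]

/-- data determining a joint eigenvector up to a scalar -/
abbrev Dat (n : ℕ) (E : Type*) [AddCommGroup E] [Module (ZMod 2) E] : Type _ :=
  Fin n → (E × Dual (ZMod 2) E) × Fin 4

def Sat {n : ℕ} (D : Dat n E) (T : E → ℂ) : Prop :=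
  ∀ j z, sg ((D j).1.2 z) • T (z + (D j).1.1) = (Complex.I ^ ((D j).2 : ℕ)) • T z

open Classical in
/-- a nonzero vector satisfying the data, if there is one -/
noncomputable def rep {n : ℕ} (D : Dat n E) : E → ℂ :=
  if h : ∃ T : E → ℂ, T ≠ 0 ∧ Sat D T then h.choose else 0

lemma root4 {c : ℂ} {a : ZMod 2} (h : c * c = sg a) : ∃ k : Fin 4, c = Complex.I ^ (k : ℕ) := by
  rcases zmod2_cases a with rfl | rfl
  · rw [sg_zero] at h
    rcases mul_self_eq_one_iff.1 h with h | h
    · exact ⟨0, by simp [h]⟩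
    · exact ⟨2, by simp [h]⟩
  · rw [sg_one] at h
    have h2 : (c - Complex.I) * (c + Complex.I) = 0 := by
      have : (c - Complex.I) * (c + Complex.I) = c * c - Complex.I * Complex.I := by ring
      rw [this, h, Complex.I_mul_I, sub_self]
    rcases mul_eq_zero.1 h2 with h | h
    · exact ⟨1, by simp [sub_eq_zero.1 h]⟩
    · refine ⟨3, ?_⟩
      have h3 : c = -Complex.I := eq_neg_of_add_eq_zero_left h
      rw [h3]
      change -Complex.I = Complex.I ^ 3
      rw [Complex.I_pow_three]

lemma exists_rep {T : E → ℂ} (h : IsQ T) :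
    ∃ (D : Dat (finrank (ZMod 2) E) E) (c : ℂ), T = c • rep D := by
  by_cases h0 : T = 0
  · refine ⟨fun _ => (0, 0), 0, ?_⟩
    rw [h0, zero_smul]
  obtain ⟨z₀, hz₀⟩ : ∃ z, T z ≠ 0 := by
    by_contra hcon
    push Not at hcon
    exact h0 (funext hcon)
  obtain ⟨w, hw⟩ := exists_linearIndependent_of_le_finrank h
  have hk : ∀ j, ∃ k : Fin 4, ∀ z, sg ((w j).1.2 z) • T (z + (w j).1.1) =
      (Complex.I ^ (k : ℕ)) • T z := by
    intro j
    obtain ⟨c, hc⟩ := (w j).2
    obtain ⟨k, hk⟩ := root4 (eig_sq hc hz₀)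
    exact ⟨k, fun z => by rw [← hk]; exact hc z⟩
  choose k hk using hk
  let D : Dat (finrank (ZMod 2) E) E := fun j => ((w j).1, k j)
  have hD : Sat D T := fun j z => hk j z
  have hex : ∃ T : E → ℂ, T ≠ 0 ∧ Sat D T := ⟨T, h0, hD⟩
  have hrep : rep D ≠ 0 ∧ Sat D (rep D) := by
    have : rep D = hex.choose := by rw [rep, dif_pos hex]
    rw [this]
    exact hex.choose_spec
  let G : E → ℂ × ℂ := fun z => (rep D z, T z)
  have hG : IsQ G := by
    have hmem : ∀ j, (w j).1 ∈ Eig G := by
      intro j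
      refine ⟨Complex.I ^ ((k j : Fin 4) : ℕ), fun z => ?_⟩
      exact Prod.ext (hrep.2 j z) (hD j z)
    let w' : Fin (finrank (ZMod 2) E) → Eig G := fun j => ⟨(w j).1, hmem j⟩
    have hw' : LinearIndependent (ZMod 2) w' := by
      have h1 : LinearIndependent (ZMod 2) (fun j => ((w j : Eig T) : E × Dual (ZMod 2) E)) :=
        hw.map' (Submodule.subtype _) (Submodule.ker_subtype _)
      exact LinearIndependent.of_comp (Submodule.subtype (Eig G)) h1
    have := hw'.fintype_card_le_finrank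
    rwa [Fintype.card_fin] at this
  obtain ⟨z₁, hz₁⟩ : ∃ z, rep D z ≠ 0 := by
    by_contra hcon
    push Not at hcon
    exact hrep.1 (funext hcon)
  have hGz : G z₁ ≠ 0 := fun h => hz₁ (congrArg Prod.fst h)
  refine ⟨D, T z₁ / rep D z₁, ?_⟩
  funext z
  obtain ⟨c, hc⟩ := isQ_values hG hGz z
  have h1 : rep D z = c * rep D z₁ := congrArg Prod.fst hc
  have h2 : T z = c * T z₁ := congrArg Prod.snd hc
  rw [Pi.smul_apply, smul_eq_mul, h1, h2]
  field_simp

end Rep

section Sign

variable {X : Type*} [Fintype X] [DecidableEq X]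

open Classical in
lemma sign_count (n : ℕ) : ∀ (U : Submodule ℂ (X → ℂ)), finrank ℂ U ≤ n → ∀ s₀ : X → ℂ,
    (univ.filter (fun f : X → ZMod 2 => (fun x => sg (f x)) - s₀ ∈ U)).card ≤ 2 ^ n := by
  have hinj : ∀ f f' : X → ZMod 2, (fun x => sg (f x)) = (fun x => sg (f' x)) → f = f' := by
    intro f f' h
    funext x
    exact sg_inj (congrFun h x)
  have hbot : ∀ (s₀ : X → ℂ),
      (univ.filter (fun f : X → ZMod 2 => (fun x => sg (f x)) - s₀ ∈ (⊥ : Submodule ℂ (X → ℂ)))).card
        ≤ 1 := by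
    intro s₀
    rw [Finset.card_le_one]
    intro f hf f' hf'
    simp only [Finset.mem_filter, Finset.mem_univ, true_and, Submodule.mem_bot] at hf hf'
    apply hinj
    rw [sub_eq_zero.1 hf, sub_eq_zero.1 hf']
  induction n with
  | zero =>
    intro U hU s₀
    have : U = ⊥ := Submodule.finrank_eq_zero.1 (Nat.le_zero.1 hU)
    subst this
    simpa using hbot s₀
  | succ n ih =>
    intro U hU s₀
    by_cases hU0 : U = ⊥
    · subst hU0
      exact (hbot s₀).trans Nat.one_le_two_pow
    obtain ⟨u, hu, hu0⟩ := Submodule.exists_mem_ne_zero_of_ne_bot hU0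
    obtain ⟨x, hx⟩ : ∃ x, u x ≠ 0 := by
      by_contra hcon
      push Not at hcon
      exact hu0 (funext hcon)
    let Ux : Submodule ℂ (X → ℂ) := U ⊓ LinearMap.ker (LinearMap.proj (R := ℂ) (φ := fun _ : X => ℂ) x)
    have hlt : Ux < U := by
      refine lt_of_le_of_ne inf_le_left fun h => ?_
      have : u ∈ Ux := h ▸ hu
      exact hx (LinearMap.mem_ker.1 this.2)
    have hfr : finrank ℂ Ux ≤ n := by
      have := Submodule.finrank_lt_finrank_of_lt hlt
      omega
    have hval : ∀ e : ZMod 2,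
        (univ.filter (fun f : X → ZMod 2 => (fun x => sg (f x)) - s₀ ∈ U ∧ f x = e)).card
          ≤ 2 ^ n := by
      intro e
      rcases Finset.eq_empty_or_nonempty
        (univ.filter (fun f : X → ZMod 2 => (fun x => sg (f x)) - s₀ ∈ U ∧ f x = e)) with h | h
      · rw [h]; simp
      · obtain ⟨f₁, hf₁⟩ := h
        simp only [Finset.mem_filter, Finset.mem_univ, true_and] at hf₁
        refine (Finset.card_le_card ?_).trans (ih Ux hfr (fun x => sg (f₁ x)))
        intro f hf
        simp only [Finset.mem_filter, Finset.mem_univ, true_and] at hf ⊢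
        refine ⟨?_, ?_⟩
        · have := U.sub_mem hf.1 hf₁.1
          simpa using this
        · change sg (f x) - sg (f₁ x) = 0
          rw [hf.2, hf₁.2, sub_self]
    have hsub : (univ.filter (fun f : X → ZMod 2 => (fun x => sg (f x)) - s₀ ∈ U)) ⊆
        (univ.filter (fun f : X → ZMod 2 => (fun x => sg (f x)) - s₀ ∈ U ∧ f x = 0)) ∪
        (univ.filter (fun f : X → ZMod 2 => (fun x => sg (f x)) - s₀ ∈ U ∧ f x = 1)) := by
      intro f hf
      simp only [Finset.mem_filter, Finset.mem_univ, true_and, Finset.mem_union] at hf ⊢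
      rcases zmod2_cases (f x) with h | h
      · exact Or.inl ⟨hf, h⟩
      · exact Or.inr ⟨hf, h⟩
    calc _ ≤ _ := Finset.card_le_card hsub
      _ ≤ _ := Finset.card_union_le _ _
      _ ≤ 2 ^ n + 2 ^ n := Nat.add_le_add (hval 0) (hval 1)
      _ = 2 ^ (n + 1) := by ring

open Classical in
/-- If every sign function on `X` is in the span of `r` functions of a family indexed by a finite
type `𝔻`, then `2 ^ |X| ≤ |𝔻| ^ r * 2 ^ r`. -/
lemma count_main {𝔻 : Type*} [Fintype 𝔻] (φ : 𝔻 → X → ℂ) (r : ℕ)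
    (h : ∀ f : X → ZMod 2, ∃ (D : Fin r → 𝔻) (c : Fin r → ℂ),
      (fun x => sg (f x)) = ∑ i, c i • φ (D i)) :
    2 ^ Fintype.card X ≤ Fintype.card 𝔻 ^ r * 2 ^ r := by
  choose D c hD using h
  have h1 : Fintype.card (X → ZMod 2) = 2 ^ Fintype.card X := by
    rw [Fintype.card_fun, ZMod.card]
  have h2 : (univ : Finset (X → ZMod 2)).card ≤
      2 ^ r * (univ.image D : Finset (Fin r → 𝔻)).card := by
    refine Finset.card_le_mul_card_image _ _ ?_
    intro D₀ _
    let U : Submodule ℂ (X → ℂ) := Submodule.span ℂ (Set.range fun i => φ (D₀ i))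
    have hU : finrank ℂ U ≤ r := by
      have := finrank_range_le_card (R := ℂ) (fun i => φ (D₀ i))
      rwa [Fintype.card_fin] at this
    refine (Finset.card_le_card ?_).trans (sign_count r U hU 0)
    intro f hf
    simp only [Finset.mem_filter, Finset.mem_univ, true_and] at hf ⊢
    rw [sub_zero, hD f, hf]
    exact Submodule.sum_mem _ fun i _ => Submodule.smul_mem _ _
      (Submodule.subset_span ⟨i, rfl⟩)
  have h3 : (univ.image D : Finset (Fin r → 𝔻)).card ≤ Fintype.card 𝔻 ^ r := by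
    refine (Finset.card_le_univ _).trans ?_
    rw [Fintype.card_fun, Fintype.card_fin]
  rw [Finset.card_univ, h1] at h2
  calc _ ≤ _ := h2
    _ ≤ 2 ^ r * Fintype.card 𝔻 ^ r := Nat.mul_le_mul_left _ h3
    _ = _ := Nat.mul_comm _ _

end Sign

end Pool.Agent.H941R2.Stab
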