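import Pool.Agent.H941R2.StabC

/-!
The operator turning copies of `e_0 + √2 e_1` into sign tables.
-/

namespace Pool.Agent.H941R2.Stab

open Finset Module

/-- coordinates of `e_0 + √2 e_1` -/
noncomputable def vv (a : ZMod 2) : ℂ := if a = 0 then 1 else (Real.sqrt 2 : ℂ)

@[simp] lemma vv_zero : vv 0 = 1 := by simp [vv]
@[simp] lemma vv_one : vv 1 = (Real.sqrt 2 : ℂ) := by simp [vv]

/-- constant parts of the eleven affine forms -/
def cst : Fin 11 → ZMod 2 := ![1, 1, 1, 1, 0, 0, 0, 0, 1, 1, 1]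

/-- linear parts of the eleven affine forms, in terms of the partial sum `c`, the bit `u` and the
auxiliary bit `s` -/
def lin (c u s : ZMod 2) : Fin 11 → ZMod 2 := ![s, s, s, s, c, u, s, c + u + s, c + u, c + s, u + s]

noncomputable def gad (c u s : ZMod 2) : ℂ := sg s * ∏ q, vv (cst q + lin c u s q)

lemma sqrt2_sq : (Real.sqrt 2 : ℂ) * (Real.sqrt 2 : ℂ) = 2 := by
  rw [← Complex.ofReal_mul, Real.mul_self_sqrt (by norm_num)]
  norm_num

/-- the gadget computes `1 - c u` up to a constant -/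
lemma gad_sum (c u : ZMod 2) :
    ∑ s, gad c u s = if c = 1 ∧ u = 1 then 0 else 6 * (Real.sqrt 2 : ℂ) := by
  have hu : (univ : Finset (ZMod 2)) = {0, 1} := by decide
  have h2 := sqrt2_sq
  have hz : (1 + 1 : ZMod 2) = 0 := by decide
  rw [hu, Finset.sum_pair (by decide)]
  simp only [gad, cst, lin, Fin.prod_univ_succ, Fin.prod_univ_zero]
  rcases zmod2_cases c with rfl | rfl <;> rcases zmod2_cases u with rfl | rfl <;>
    simp [hz, Fin.succ] <;> ring_nf <;>
    linear_combination (Real.sqrt 2 : ℂ) * (((Real.sqrt 2 : ℂ) * (Real.sqrt 2 : ℂ)) ^ 2 +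
      2 * ((Real.sqrt 2 : ℂ) * (Real.sqrt 2 : ℂ)) + 3) * h2

/-- partial sums of a bit string -/
def pre {N : ℕ} (u : Fin N → ZMod 2) (i : Fin N) : ZMod 2 := ∑ j with j < i, u j

lemma pre_add {N : ℕ} (u u' : Fin N → ZMod 2) (i : Fin N) : pre (u + u') i = pre u i + pre u' i := by
  simp [pre, Finset.sum_add_distrib]

/-- the product of the gadgets along a chain -/
noncomputable def Gd {N : ℕ} (u s : Fin N → ZMod 2) : ℂ := ∏ i, gad (pre u i) (u i) (s i)

noncomputable def H {N : ℕ} (u : Fin N → ZMod 2) : ℂ := ∑ s, Gd u s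

lemma H_eq {N : ℕ} (u : Fin N → ZMod 2) :
    H u = ∏ i, (if pre u i = 1 ∧ u i = 1 then 0 else 6 * (Real.sqrt 2 : ℂ)) := by
  unfold H Gd
  simp only [← gad_sum]
  rw [Finset.prod_univ_sum]
  refine Finset.sum_congr ?_ fun _ _ => rfl
  ext s
  simp

lemma H_single {N : ℕ} (a : Fin N) :
    H (Pi.single a 1 : Fin N → ZMod 2) = (6 * (Real.sqrt 2 : ℂ)) ^ N := by
  rw [H_eq]
  have : ∀ i : Fin N, ¬ (pre (Pi.single a 1 : Fin N → ZMod 2) i = 1 ∧
      (Pi.single a 1 : Fin N → ZMod 2) i = 1) := by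
    rintro i ⟨h1, h2⟩
    have hia : i = a := by
      by_contra hne
      rw [Pi.single_eq_of_ne hne] at h2
      exact absurd h2 (by decide)
    subst hia
    have : pre (Pi.single i 1 : Fin N → ZMod 2) i = 0 := by
      refine Finset.sum_eq_zero fun j hj => ?_
      simp only [Finset.mem_filter, Finset.mem_univ, true_and] at hj
      rw [Pi.single_eq_of_ne hj.ne]
    rw [this] at h1
    exact absurd h1 (by decide)
  simp [this]

lemma H_support {N : ℕ} {u : Fin N → ZMod 2} (hu : H u ≠ 0) (hs : ∑ i, u i = 1) :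
    ∃ a, u = Pi.single a 1 := by
  rw [H_eq, Finset.prod_ne_zero_iff] at hu
  have hu' : ∀ i, ¬ (pre u i = 1 ∧ u i = 1) := by
    intro i h
    exact hu i (Finset.mem_univ i) (if_pos h)
  have hne : (univ.filter (fun i => u i = 1)).Nonempty := by
    by_contra hcon
    rw [Finset.not_nonempty_iff_eq_empty, Finset.filter_eq_empty_iff] at hcon
    have : ∑ i, u i = 0 := Finset.sum_eq_zero fun i _ =>
      (zmod2_cases (u i)).resolve_right (hcon (Finset.mem_univ i))
    rw [this] at hs
    exact absurd hs (by decide)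
  obtain ⟨a, ha, hmin⟩ := Finset.exists_minimal hne
  simp only [Finset.mem_filter, Finset.mem_univ, true_and] at ha hmin
  have hlt : ∀ j, j < a → u j = 0 := by
    intro j hj
    refine (zmod2_cases (u j)).resolve_right fun h => ?_
    exact absurd (hmin h hj.le) (not_le.2 hj)
  have hgt : ∀ j : Fin N, a < j → u j = 0 := by
    intro j
    induction j using WellFoundedLT.induction with
    | _ j ih =>
      intro hj
      refine (zmod2_cases (u j)).resolve_right fun h => hu' j ⟨?_, h⟩
      unfold pre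
      rw [Finset.sum_eq_single a]
      · exact ha
      · intro k hk hka
        simp only [Finset.mem_filter, Finset.mem_univ, true_and] at hk
        rcases lt_or_gt_of_ne hka with h1 | h1
        · exact hlt k h1
        · exact ih k hk h1
      · intro h1
        exact absurd (by simpa using hj) h1
  refine ⟨a, funext fun j => ?_⟩
  by_cases hja : j = a
  · rw [hja, Pi.single_eq_same, ha]
  · rw [Pi.single_eq_of_ne hja]
    rcases lt_or_gt_of_ne hja with h1 | h1
    · exact hlt j h1
    · exact hgt j h1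

section Op

variable (m : ℕ)

/-- labels of the positions: distinct bit strings with first bit one -/
noncomputable def bits : Fin (2 ^ m) ≃ (Fin m → ZMod 2) :=
  Fintype.equivOfCardEq (by rw [Fintype.card_fun, ZMod.card, Fintype.card_fin, Fintype.card_fin])

noncomputable def lab (a : Fin (2 ^ m)) : Fin (m + 1) → ZMod 2 := Fin.cons 1 (bits m a)

lemma lab_inj : Function.Injective (lab m) := by
  intro a b h
  have := (Fin.cons_injective2 h).2
  exact (bits m).injective this

noncomputable def B : (Fin (2 ^ m) → ZMod 2) →ₗ[ZMod 2] (Fin (m + 1) → ZMod 2) :=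
  Fintype.linearCombination (ZMod 2) (lab m)

lemma B_zero (u : Fin (2 ^ m) → ZMod 2) : B m u 0 = ∑ i, u i := by
  simp [B, Fintype.linearCombination_apply, lab, Finset.sum_apply]

lemma B_single (a : Fin (2 ^ m)) : B m (Pi.single a 1) = lab m a := by
  simp [B]

lemma B_unique {u : Fin (2 ^ m) → ZMod 2} (hu : H u ≠ 0) {a : Fin (2 ^ m)}
    (h : B m u = lab m a) : u = Pi.single a 1 := by
  have h1 : ∑ i, u i = 1 := by
    rw [← B_zero, h]
    simp [lab]
  obtain ⟨b, hb⟩ := H_support hu h1
  rw [hb, B_single] at h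
  rw [hb, lab_inj m h]

/-- the space of the internal variables -/
abbrev EE (N : ℕ) : Type :=
  ((Fin N → ZMod 2) × (Fin N → ZMod 2)) × ((Fin N → ZMod 2) × (Fin N → ZMod 2))

abbrev FF (m : ℕ) : Type := (Fin (m + 1) → ZMod 2) × (Fin (m + 1) → ZMod 2)

noncomputable def pp : EE (2 ^ m) →ₗ[ZMod 2] FF m :=
  LinearMap.prodMap ((B m).comp (LinearMap.fst _ _ _)) ((B m).comp (LinearMap.fst _ _ _))

end Op

section Phase

variable {N : ℕ} (f : Fin N × Fin N → ZMod 2)

def bil (u w : Fin N → ZMod 2) : ZMod 2 := ∑ x : Fin N × Fin N, f x * u x.1 * w x.2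

def gg (e : EE N) : ZMod 2 := bil f e.1.1 e.2.1 + ∑ i, e.1.2 i + ∑ i, e.2.2 i

lemma bil_add_left (u u' w : Fin N → ZMod 2) : bil f (u + u') w = bil f u w + bil f u' w := by
  simp only [bil, Pi.add_apply, ← Finset.sum_add_distrib]
  exact Finset.sum_congr rfl fun x _ => by ring

lemma bil_add_right (u w w' : Fin N → ZMod 2) : bil f u (w + w') = bil f u w + bil f u w' := by
  simp only [bil, Pi.add_apply, ← Finset.sum_add_distrib]
  exact Finset.sum_congr rfl fun x _ => by ring

lemma bil_smul_left (c : ZMod 2) (u w : Fin N → ZMod 2) : bil f (c • u) w = c * bil f u w := by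
  simp only [bil, Pi.smul_apply, smul_eq_mul, Finset.mul_sum]
  exact Finset.sum_congr rfl fun x _ => by ring

lemma bil_smul_right (c : ZMod 2) (u w : Fin N → ZMod 2) : bil f u (c • w) = c * bil f u w := by
  simp only [bil, Pi.smul_apply, smul_eq_mul, Finset.mul_sum]
  exact Finset.sum_congr rfl fun x _ => by ring

lemma bil_single (a b : Fin N) : bil f (Pi.single a 1) (Pi.single b 1) = f (a, b) := by
  unfold bil
  rw [Finset.sum_eq_single (a, b)]
  · simp
  · rintro ⟨x, y⟩ _ hne
    by_cases hx : x = a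
    · by_cases hy : y = b
      · exact absurd (by rw [hx, hy]) hne
      · simp [Pi.single_eq_of_ne hy]
    · simp [Pi.single_eq_of_ne hx]
  · intro h
    exact absurd (Finset.mem_univ _) h

/-- the polar form of `gg` -/
noncomputable def polar : EE N →ₗ[ZMod 2] Dual (ZMod 2) (EE N) :=
  LinearMap.mk₂ (ZMod 2) (fun a z => bil f z.1.1 a.2.1 + bil f a.1.1 z.2.1)
    (fun a a' z => by
      simp only [Prod.fst_add, Prod.snd_add, bil_add_left, bil_add_right]; ring)
    (fun c a z => by
      simp only [Prod.smul_fst, Prod.smul_snd, bil_smul_left, bil_smul_right, smul_eq_mul]; ring)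
    (fun a z z' => by
      simp only [Prod.fst_add, Prod.snd_add, bil_add_left, bil_add_right]; ring)
    (fun c a z => by
      simp only [Prod.smul_fst, Prod.smul_snd, bil_smul_left, bil_smul_right, smul_eq_mul]; ring)

lemma gg_add (z a : EE N) : gg f (z + a) = gg f z + gg f a + polar f a z := by
  simp only [gg, polar, LinearMap.mk₂_apply, Prod.fst_add, Prod.snd_add, bil_add_left,
    bil_add_right, Pi.add_apply, Finset.sum_add_distrib]
  ring

end Phase

section Forms

variable {N t : ℕ}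

/-- index set of the copies of `v` -/
abbrev JJ (N : ℕ) : Type := (Fin N × Fin 11) ⊕ (Fin N × Fin 11)

def linJ (e : EE N) : JJ N → ZMod 2 :=
  Sum.elim (fun x => lin (pre e.1.1 x.1) (e.1.1 x.1) (e.1.2 x.1) x.2)
    (fun x => lin (pre e.2.1 x.1) (e.2.1 x.1) (e.2.2 x.1) x.2)

def cJ : JJ N → ZMod 2 := Sum.elim (fun x => cst x.2) (fun x => cst x.2)

lemma lin_add (c u s c' u' s' : ZMod 2) (q : Fin 11) :
    lin (c + c') (u + u') (s + s') q = lin c u s q + lin c' u' s' q := by
  revert c u s c' u' s' q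
  decide

lemma linJ_add (e e' : EE N) (j : JJ N) : linJ (e + e') j = linJ e j + linJ e' j := by
  rcases j with x | x
  · simp only [linJ, Sum.elim_inl, Prod.fst_add, Prod.snd_add, pre_add, Pi.add_apply, lin_add]
  · simp only [linJ, Sum.elim_inr, Prod.fst_add, Prod.snd_add, pre_add, Pi.add_apply, lin_add]

/-- spreading a function on `JJ N` over `Fin t` -/
def spread (ε : JJ N → Fin t) (g : JJ N → ZMod 2) (k : Fin t) : ZMod 2 :=
  ∑ j, if ε j = k then g j else 0

lemma spread_apply {ε : JJ N → Fin t} (hε : Function.Injective ε) (g : JJ N → ZMod 2) (j : JJ N) :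
    spread ε g (ε j) = g j := by
  unfold spread
  rw [Finset.sum_eq_single j]
  · simp
  · intro j' _ hne
    rw [if_neg fun h => hne (hε h)]
  · intro h
    exact absurd (Finset.mem_univ _) h

lemma spread_out {ε : JJ N → Fin t} (g : JJ N → ZMod 2) {k : Fin t} (hk : k ∉ Set.range ε) :
    spread ε g k = 0 := by
  refine Finset.sum_eq_zero fun j _ => if_neg fun h => hk ⟨j, h⟩

lemma spread_add (ε : JJ N → Fin t) (g g' : JJ N → ZMod 2) :
    spread ε (g + g') = spread ε g + spread ε g' := by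
  funext k
  simp only [spread, Pi.add_apply, ← Finset.sum_add_distrib]
  refine Finset.sum_congr rfl fun j _ => ?_
  split_ifs <;> simp

noncomputable def ll (ε : JJ N → Fin t) : EE N →ₗ[ZMod 2] (Fin t → ZMod 2) :=
  AddMonoidHom.toZModLinearMap 2 (AddMonoidHom.mk' (fun e => spread ε (linJ e)) (fun e e' => by
    rw [← spread_add]
    congr 1
    funext j
    exact linJ_add e e' j))

lemma ll_apply (ε : JJ N → Fin t) (e : EE N) : ll ε e = spread ε (linJ e) := rfl

/-- the coordinates of `v^{⊗ t}` -/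
noncomputable def vP (t : ℕ) (x : Fin t → ZMod 2) : ℂ := ∏ k, vv (x k)

lemma vP_spread {ε : JJ N → Fin t} (hε : Function.Injective ε) (e : EE N) :
    vP t (spread ε cJ + ll ε e) =
      (∏ i, ∏ q, vv (cst q + lin (pre e.1.1 i) (e.1.1 i) (e.1.2 i) q)) *
      (∏ i, ∏ q, vv (cst q + lin (pre e.2.1 i) (e.2.1 i) (e.2.2 i) q)) := by
  unfold vP
  rw [← Fintype.prod_of_injective ε hε (fun j => vv (cJ j + linJ e j))]
  · rw [Fintype.prod_sum_type, Fintype.prod_prod_type, Fintype.prod_prod_type]
    rfl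
  · intro k hk
    rw [Pi.add_apply, ll_apply, spread_out _ hk, spread_out _ hk, add_zero, vv_zero]
  · intro j
    rw [Pi.add_apply, ll_apply, spread_apply hε, spread_apply hε]

end Forms

section Value

variable {m t : ℕ} (f : Fin (2 ^ m) × Fin (2 ^ m) → ZMod 2) (ε : JJ (2 ^ m) → Fin t)

/-- the operator from `t` to `2 (m + 1)` qubits -/
noncomputable def op (T : (Fin t → ZMod 2) → ℂ) (x : FF m) : ℂ :=
  ∑ e with pp m e = x, sg (gg f e) • T (spread ε cJ + ll ε e)

lemma op_isQ {T : (Fin t → ZMod 2) → ℂ} (h : IsQ T) : IsQ (op f ε T) :=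
  isQ_pushforward (isQ_phase (isQ_pullback (isQ_translate h (spread ε cJ)) (ll ε)) (gg f)
    (polar f) (gg_add f)) (pp m)

lemma op_sum {r : ℕ} (α : Fin r → ℂ) (S : Fin r → (Fin t → ZMod 2) → ℂ) :
    op f ε (∑ i, α i • S i) = ∑ i, α i • op f ε (S i) := by
  funext x
  simp only [op, Finset.sum_apply, Pi.smul_apply, smul_eq_mul, Finset.mul_sum]
  rw [Finset.sum_comm]
  refine Finset.sum_congr rfl fun i _ => Finset.sum_congr rfl fun e _ => ?_
  ring

lemma term_eq (hε : Function.Injective ε) (e : EE (2 ^ m)) :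
    sg (gg f e) • vP t (spread ε cJ + ll ε e) =
      sg (bil f e.1.1 e.2.1) * (Gd e.1.1 e.1.2 * Gd e.2.1 e.2.2) := by
  rw [vP_spread hε, gg, sg_add, sg_add, sg_sum, sg_sum, smul_eq_mul]
  simp only [Gd, gad, Finset.prod_mul_distrib]
  ring

lemma op_value (hε : Function.Injective ε) (a b : Fin (2 ^ m)) :
    op f ε (vP t) (lab m a, lab m b) =
      (6 * (Real.sqrt 2 : ℂ)) ^ (2 ^ m + 2 ^ m) * sg (f (a, b)) := by
  classical
  unfold op
  simp only [term_eq f ε hε]
  rw [Finset.sum_filter]
  have h1 : ∀ e : EE (2 ^ m), (if pp m e = (lab m a, lab m b) then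
      sg (bil f e.1.1 e.2.1) * (Gd e.1.1 e.1.2 * Gd e.2.1 e.2.2) else 0) =
      (if B m e.1.1 = lab m a ∧ B m e.2.1 = lab m b then
        sg (bil f e.1.1 e.2.1) * (Gd e.1.1 e.1.2 * Gd e.2.1 e.2.2) else 0) := by
    intro e
    congr 1
    rw [Prod.ext_iff]
    rfl
  simp only [h1]
  rw [Fintype.sum_prod_type]
  simp only [Fintype.sum_prod_type]
  have h2 : ∀ u : Fin (2 ^ m) → ZMod 2, (∑ s : Fin (2 ^ m) → ZMod 2, ∑ w : Fin (2 ^ m) → ZMod 2,
      ∑ s' : Fin (2 ^ m) → ZMod 2, if B m u = lab m a ∧ B m w = lab m b then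
        sg (bil f u w) * (Gd u s * Gd w s') else 0) =
      ∑ w : Fin (2 ^ m) → ZMod 2, if B m u = lab m a ∧ B m w = lab m b then
        sg (bil f u w) * (H u * H w) else 0 := by
    intro u
    rw [Finset.sum_comm]
    refine Finset.sum_congr rfl fun w _ => ?_
    split_ifs with h
    · unfold H
      rw [Finset.sum_mul_sum, Finset.mul_sum]
      simp only [Finset.mul_sum]
    · simp
  simp only [h2]
  rw [Finset.sum_eq_single (Pi.single a 1)]
  · rw [Finset.sum_eq_single (Pi.single b 1)]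
    · rw [if_pos ⟨B_single m a, B_single m b⟩, bil_single, H_single, H_single]
      ring
    · intro w _ hw
      split_ifs with h
      · by_cases hH : H w = 0
        · rw [hH]; ring
        · exact absurd (B_unique m hH h.2) hw
      · rfl
    · intro h
      exact absurd (Finset.mem_univ _) h
  · intro u _ hu
    refine Finset.sum_eq_zero fun w _ => ?_
    split_ifs with h
    · by_cases hH : H u = 0
      · rw [hH]; ring
      · exact absurd (B_unique m hH h.1) hu
    · rfl
  · intro h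
    exact absurd (Finset.mem_univ _) h

end Value

/-- The quantitative lower bound. -/
lemma lower_bound {m t r : ℕ} (ht : 22 * 2 ^ m ≤ t) (α : Fin r → ℂ)
    (S : Fin r → (Fin t → ZMod 2) → ℂ) (hS : ∀ i, IsQ (S i)) (hv : vP t = ∑ i, α i • S i) :
    4 ^ m ≤ r * (8 * m ^ 2 + 20 * m + 13) := by
  classical
  obtain ⟨ε⟩ : Nonempty (JJ (2 ^ m) ↪ Fin t) := by
    apply Function.Embedding.nonempty_of_card_le
    simp only [JJ, Fintype.card_sum, Fintype.card_prod, Fintype.card_fin]
    omega
  have hfr : finrank (ZMod 2) (FF m) = 2 * m + 2 := by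
    rw [Module.finrank_prod, Module.finrank_fin_fun]
    ring
  let D := Dat (finrank (ZMod 2) (FF m)) (FF m)
  have : Finite (Dual (ZMod 2) (FF m)) := Module.finite_of_finite (ZMod 2)
  have : Fintype (Dual (ZMod 2) (FF m)) := Fintype.ofFinite _
  have hC : ((6 * (Real.sqrt 2 : ℂ)) ^ (2 ^ m + 2 ^ m)) ≠ 0 := by
    apply pow_ne_zero
    apply mul_ne_zero (by norm_num)
    intro h
    have := sqrt2_sq
    rw [h] at this
    norm_num at this
  have key := count_main (X := Fin (2 ^ m) × Fin (2 ^ m)) (𝔻 := D)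
    (fun d x => rep d (lab m x.1, lab m x.2)) r (by
      intro f
      have h1 : ∀ i, ∃ (d : D) (c : ℂ), op f ε (S i) = c • rep d := fun i =>
        exists_rep (op_isQ f ε (hS i))
      choose d c hdc using h1
      refine ⟨d, fun i => ((6 * (Real.sqrt 2 : ℂ)) ^ (2 ^ m + 2 ^ m))⁻¹ * (α i * c i), ?_⟩
      funext x
      have h2 := op_value f ε ε.injective x.1 x.2
      rw [hv, op_sum, Finset.sum_apply] at h2
      simp only [Finset.sum_apply, Pi.smul_apply, smul_eq_mul, hdc] at h2 ⊢
      have h3 : sg (f x) = ((6 * (Real.sqrt 2 : ℂ)) ^ (2 ^ m + 2 ^ m))⁻¹ *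
          ∑ i, α i * (c i * rep (d i) (lab m x.1, lab m x.2)) := by
        rw [h2, ← mul_assoc, inv_mul_cancel₀ hC, one_mul]
      rw [h3, Finset.mul_sum]
      refine Finset.sum_congr rfl fun i _ => ?_
      ring)
  have hcard : Fintype.card D = 2 ^ ((2 * (2 * m + 2) + 2) * (2 * m + 2)) := by
    have hF : Fintype.card (FF m) = 2 ^ (2 * m + 2) := by
      rw [Module.card_eq_pow_finrank (K := ZMod 2), hfr, ZMod.card]
    have hDu : Fintype.card (Dual (ZMod 2) (FF m)) = 2 ^ (2 * m + 2) := by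
      rw [Module.card_eq_pow_finrank (K := ZMod 2), Subspace.dual_finrank_eq, hfr, ZMod.card]
    have : Fintype.card D = (Fintype.card (FF m) * Fintype.card (Dual (ZMod 2) (FF m)) * 4) ^
        (finrank (ZMod 2) (FF m)) := by
      simp only [D, Dat, Fintype.card_fun, Fintype.card_prod, Fintype.card_fin]
    rw [this, hF, hDu, hfr, show (4 : ℕ) = 2 ^ 2 by norm_num, ← pow_add, ← pow_add, ← pow_mul]
    congr 1
    ring
  rw [Fintype.card_prod, Fintype.card_fin, hcard] at key
  have h5 : (2 : ℕ) ^ (2 ^ m * 2 ^ m) ≤ 2 ^ ((2 * (2 * m + 2) + 2) * (2 * m + 2) * r + r) := by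
    rw [pow_add, pow_mul 2 ((2 * (2 * m + 2) + 2) * (2 * m + 2)) r]
    exact key
  have h4 := (Nat.pow_le_pow_iff_right (a := 2) (by norm_num)).1 h5
  calc 4 ^ m = 2 ^ m * 2 ^ m := by rw [← mul_pow]; norm_num
    _ ≤ _ := h4
    _ = r * (8 * m ^ 2 + 20 * m + 13) := by ring

end Pool.Agent.H941R2.Stab
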